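import Pool.Agent.Lib.MP_28303a_al.WR.Iface

/-! # Module PSWAP: `k[t][G] ≃ k[G][t]`, naturally in `G` -/

set_option autoImplicit false
set_option linter.unusedSectionVars false

namespace Pool.Agent.NegK.WR.H48

universe u v w

open MonoidAlgebra Pool.Agent.NegK

/-- `k[t][G] ≃ k[G][t]`. -/
noncomputable def pswapEquiv (k : Type u) [Ring k] (G : Type v) [Group G] :
    MonoidAlgebra (Polynomial k) G ≃+* Polynomial (MonoidAlgebra k G) :=
  ((((MonoidAlgebra.mapRingEquiv G (Polynomial.toFinsuppIso k)).trans
    (MonoidAlgebra.mapRingEquiv G (AddMonoidAlgebra.toMultiplicative k ℕ))).trans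
    (MonoidAlgebra.commRingEquiv (R := k) (M := Multiplicative ℕ) (N := G))).trans
    (AddMonoidAlgebra.toMultiplicative (MonoidAlgebra k G) ℕ).symm).trans
    (Polynomial.toFinsuppIso (MonoidAlgebra k G)).symm

theorem pswapEquiv_single (k : Type u) [Ring k] (G : Type v) [Group G] (g : G) (n : ℕ) (r : k) :
    pswapEquiv k G (single g (Polynomial.monomial n r)) =
      Polynomial.monomial n (single g r) := by
  show (Polynomial.toFinsuppIso (MonoidAlgebra k G)).symm
    ((AddMonoidAlgebra.toMultiplicative (MonoidAlgebra k G) ℕ).symm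
    (MonoidAlgebra.commRingEquiv (R := k) (M := Multiplicative ℕ) (N := G)
      (MonoidAlgebra.mapRingEquiv G (AddMonoidAlgebra.toMultiplicative k ℕ)
        (MonoidAlgebra.mapRingEquiv G (Polynomial.toFinsuppIso k)
          (single g (Polynomial.monomial n r)))))) = _
  rw [MonoidAlgebra.mapRingEquiv_single]
  have h1 : Polynomial.toFinsuppIso k (Polynomial.monomial n r) = AddMonoidAlgebra.single n r :=
    Polynomial.toFinsupp_monomial n r
  rw [h1, MonoidAlgebra.mapRingEquiv_single, AddMonoidAlgebra.toMultiplicative_single,
    MonoidAlgebra.commRingEquiv_single_single, RingEquiv.symm_apply_eq, RingEquiv.symm_apply_eq]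
  have h2 : Polynomial.toFinsuppIso (MonoidAlgebra k G) (Polynomial.monomial n (single g r)) =
      AddMonoidAlgebra.single n (single g r) := Polynomial.toFinsupp_monomial n _
  rw [h2]
  exact (AddMonoidAlgebra.toMultiplicative_single _ _).symm

theorem pswap : PswapStatement.{u} := by
  intro k _ G H _ _ f
  refine ⟨pswapEquiv k G, pswapEquiv k H, ?_⟩
  suffices h : (Polynomial.mapRingHom (mdr k f)).comp
      (pswapEquiv k G : MonoidAlgebra (Polynomial k) G →+* Polynomial (MonoidAlgebra k G)) =
      (pswapEquiv k H : MonoidAlgebra (Polynomial k) H →+* Polynomial (MonoidAlgebra k H)).comp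
        (mdr (Polynomial k) f) from fun x => RingHom.congr_fun h x
  have key : ∀ (g : G) (n : ℕ) (r : k), Polynomial.mapRingHom (mdr k f)
      (pswapEquiv k G (single g (Polynomial.monomial n r))) =
      pswapEquiv k H (mdr (Polynomial k) f (single g (Polynomial.monomial n r))) := by
    intro g n r
    rw [pswapEquiv_single, mdr_single, pswapEquiv_single, Polynomial.coe_mapRingHom,
      Polynomial.map_monomial, mdr_single]
  have key2 : ∀ (g : G) (p : Polynomial k), Polynomial.mapRingHom (mdr k f)
      (pswapEquiv k G (single g p)) = pswapEquiv k H (mdr (Polynomial k) f (single g p)) := by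
    intro g p
    induction p using Polynomial.induction_on' with
    | add p q hp hq =>
      rw [MonoidAlgebra.single_add, map_add, map_add, map_add, map_add, hp, hq]
    | monomial n r => exact key g n r
  refine MonoidAlgebra.ringHom_ext (fun r => ?_) (fun a => ?_)
  · exact key2 1 r
  · exact key2 a 1

end Pool.Agent.NegK.WR.H48
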